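import Mathlib

namespace Pool.Agent.Results.MP_33fb9b_co.BelowBeta

/-- The linear extensions of `r`: lists of all elements, without repetition, in which no element
is listed after an element above it. -/
def LinExt {α : Type} (r : α → α → Prop) : Set (List α) :=
  {l | l.Nodup ∧ (∀ x, x ∈ l) ∧ l.Pairwise fun u v => ¬ r v u}

/-- The probability that `x` comes before `y` in a uniform linear extension. -/
noncomputable def pr {α : Type} [DecidableEq α] (r : α → α → Prop) (x y : α) : ℝ :=
  ({l ∈ LinExt r | l.idxOf x < l.idxOf y}.ncard : ℝ) / (LinExt r).ncard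

/-- The balance constant. -/
noncomputable def bal {α : Type} [DecidableEq α] (r : α → α → Prop) : ℝ :=
  ⨆ p : α × α, min (pr r p.1 p.2) (pr r p.2 p.1)

/-- `r` is isomorphic to `S₁ ⊕ ⋯ ⊕ S_k`, `k ≥ 1`, where `Sᵢ` is `ℰ` (points `0 < 1` and `2`)
if `s i` holds and the one-point poset (the point `0`) otherwise. -/
def InD {α : Type} (r : α → α → Prop) : Prop :=
  ∃ k, 1 ≤ k ∧ ∃ (s : Fin k → Prop) (e : α ≃ {p : Fin k × Fin 3 // s p.1 ∨ p.2 = 0}), ∀ a b,
    r a b ↔ (e a).1.1 < (e b).1.1 ∨
      ((e a).1.1 = (e b).1.1 ∧ ((e a).1.2 = (e b).1.2 ∨ ((e a).1.2 = 0 ∧ (e b).1.2 = 1)))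

def E {α : Type} (R : α → α → Prop) (T : Set α) : Set (List α) :=
  {l | l.Nodup ∧ (∀ x, x ∈ l ↔ x ∈ T) ∧ l.Pairwise fun u v => ¬ R v u}

def Ok {α : Type} (R : α → α → Prop) (T : Set α) (m : α) : Prop :=
  m ∈ T ∧ ∀ v ∈ T, v ≠ m → ¬ R v m

theorem E_fin {α : Type} [Fintype α] (R : α → α → Prop) (T : Set α) : (E R T).Finite :=
  (List.finite_length_le α (Fintype.card α)).subset fun _ h => h.1.length_le_card

theorem E_empty {α : Type} (R : α → α → Prop) : E R ∅ = {[]} := by
  ext l
  simp only [E, Set.mem_ofPred_eq, Set.mem_empty_iff_false, iff_false, Set.mem_singleton_iff]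
  exact ⟨fun h => List.eq_nil_iff_forall_not_mem.mpr h.2.1, by rintro rfl; simp⟩

theorem E_cons {α : Type} (R : α → α → Prop) (T : Set α) (m : α) (l : List α) :
    m :: l ∈ E R T ↔ Ok R T m ∧ l ∈ E R (T \ {m}) := by
  simp only [E, Ok, Set.mem_ofPred_eq, List.nodup_cons, List.pairwise_cons, List.mem_cons,
    Set.mem_sdiff, Set.mem_singleton_iff]
  constructor
  · rintro ⟨⟨a, b⟩, c, d, e⟩
    refine ⟨⟨(c m).mp (Or.inl rfl), fun v hv hm => d v (((c v).mpr hv).resolve_left hm)⟩, b,
      fun x => ⟨fun h => ⟨(c x).mp (Or.inr h), fun h' => a (h' ▸ h)⟩,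
        fun h => ((c x).mpr h.1).resolve_left h.2⟩, e⟩
  · rintro ⟨⟨a, b⟩, c, d, e⟩
    refine ⟨⟨fun h => ((d m).mp h).2 rfl, c⟩, fun x => ⟨?_, fun h => ?_⟩,
      fun v hv => b v ((d v).mp hv).1 ((d v).mp hv).2, e⟩
    · rintro (rfl | h)
      · exact a
      · exact ((d x).mp h).1
    · by_cases hx : x = m
      · exact Or.inl hx
      · exact Or.inr ((d x).mpr ⟨h, hx⟩)

open Classical in
theorem E_two {α : Type} [Fintype α] (R : α → α → Prop) (T : Set α) (hT : T.Nonempty) (a b : α)
    (hab : a ≠ b) (h : ∀ m, Ok R T m → m = a ∨ m = b) :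
    (E R T).ncard = (if Ok R T a then (E R (T \ {a})).ncard else 0) +
      (if Ok R T b then (E R (T \ {b})).ncard else 0) := by
  have key : ∀ m, {l ∈ E R T | l.head? = some m}.ncard =
      if Ok R T m then (E R (T \ {m})).ncard else 0 := fun m => by
    have : {l ∈ E R T | l.head? = some m} =
        (m :: ·) '' {l | Ok R T m ∧ l ∈ E R (T \ {m})} := by
      ext l
      constructor
      · rintro ⟨h1, h2⟩
        cases l with
        | nil => simp at h2
        | cons x l =>
          obtain rfl : x = m := by simpa using h2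
          exact ⟨l, (E_cons R T x l).mp h1, rfl⟩
      · rintro ⟨l, h1, rfl⟩
        exact ⟨(E_cons R T m l).mpr h1, rfl⟩
    rw [this, Set.ncard_image_of_injective _ List.cons_injective]
    split_ifs with h <;> simp [h]
  rw [← key a, ← key b, ← Set.ncard_union_eq (Set.disjoint_left.mpr fun l p q =>
    hab (Option.some.inj (p.2.symm.trans q.2))) ((E_fin R T).subset fun _ h => h.1)
    ((E_fin R T).subset fun _ h => h.1)]
  congr 1
  ext l
  constructor
  · intro hl
    cases l with
    | nil => obtain ⟨x, hx⟩ := hT; simpa using (hl.2.1 x).mpr hx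
    | cons x l =>
      rcases h x ((E_cons R T x l).mp hl).1 with rfl | rfl
      · exact Or.inl ⟨hl, rfl⟩
      · exact Or.inr ⟨hl, rfl⟩
  · rintro (h | h) <;> exact h.1

def M : ℕ := 0x1fffff7ffff7ffff9ffff9ffffc7fffc7fffe1fffe1ffff03fff07fff81fff81fffc03ffc07ffe01ffe01fff001ff007ff800ff801ffc007fc007fe000fe001ff0003f0007f8001f8001fc0003c0007e0001e0001f00003000078000180001c00000000060000000001000001fffffffff8ffffdffffc1fffe7fffe0ffff1ffff01fff87fff80fffc1fffc01ffe07ffe007ff01fff003ff807ff8003fc01ffc001fe007fe000ff001ff0001f8007f8000fc001fc0001e0007e0000f0001f000038000780000c0001c00002000060000000001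

def rb (u v : ℕ) : Bool := M.testBit (41 * u + v)

def inT (p q u : ℕ) : Bool := u < p || (20 ≤ u && u < 20 + q)

def rx (x y u v : ℕ) : Bool := rb u v || (u == x && v == y)

def okb (x y p q m : ℕ) : Bool :=
  inT p q m && (List.range 41).all fun v => !(inT p q v && v != m && rx x y v m)

def nxt (x y k : ℕ) (row : List ℕ) : List ℕ := (List.range 21).map fun p =>
  (if okb x y p (k + 1 - p) (p - 1) then row.getD (p - 1) 0 else 0) +
    (if okb x y p (k + 1 - p) (20 + (k + 1 - p - 1)) then row.getD p 0 else 0)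

def rows (x y : ℕ) : ℕ → List ℕ
  | 0 => [1]
  | k + 1 => nxt x y k (rows x y k)

def cnt (x y : ℕ) : ℕ := (rows x y 41).getD 20 0

def r (u v : Fin 41) : Prop := rb u v = true

instance : DecidableRel r := fun _ _ => inferInstanceAs (Decidable (_ = true))

theorem chain : ∀ u v : Fin 41, v ≤ u → (u.1 < 20 ∨ 20 ≤ v.1) → r u v := by decide +kernel

def lo (u v : ℕ) : Bool := Nat.testBit 0x400000000030000000000400000000030000000000400000000030000000000400000000030000000000c00000000010000000000c00000000070000000000400000000030000000000400000000030000000000400000000010000000000400000000018000000000200000000008000000000200000000008000000000600000000008000000000600000000008000000000600000000038000000000200000000018000000000600000000008000000000600000000008000000000600000000008000000000600000 (41 * u + v)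

theorem check1 : ∀ x y : Fin 41, r x y ∨ r y x ∨ lo x y = true ∨ lo y x = true := by
  decide +kernel

theorem cntZ : cnt 41 41 = 1583915616 := by decide +kernel

theorem c0 : ∀ x : Fin 7, ∀ y : Fin 41, lo (0 + x) y = true → cnt (0 + x) y ≤ 552536892 := by
  decide +kernel

theorem c7 : ∀ x : Fin 7, ∀ y : Fin 41, lo (7 + x) y = true → cnt (7 + x) y ≤ 552536892 := by
  decide +kernel

theorem c14 : ∀ x : Fin 7, ∀ y : Fin 41, lo (14 + x) y = true → cnt (14 + x) y ≤ 552536892 := by
  decide +kernel

theorem c21 : ∀ x : Fin 7, ∀ y : Fin 41, lo (21 + x) y = true → cnt (21 + x) y ≤ 552536892 := by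
  decide +kernel

theorem c28 : ∀ x : Fin 7, ∀ y : Fin 41, lo (28 + x) y = true → cnt (28 + x) y ≤ 552536892 := by
  decide +kernel

theorem c35 : ∀ x : Fin 7, ∀ y : Fin 41, lo (35 + x) y = true → cnt (35 + x) y ≤ 552536892 := by
  decide +kernel

theorem check2 (x y : Fin 41) : lo x y = true → cnt x y ≤ 552536892 := by
  have := x.2
  obtain h | h | h | h | h | h : x.1 / 7 = 0 ∨ x.1 / 7 = 1 ∨ x.1 / 7 = 2 ∨ x.1 / 7 = 3 ∨
    x.1 / 7 = 4 ∨ x.1 / 7 = 5 := by omega
  · rw [show x.1 = 0 + x.1 % 7 by omega]; exact c0 ⟨_, Nat.mod_lt _ (by norm_num)⟩ y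
  · rw [show x.1 = 7 + x.1 % 7 by omega]; exact c7 ⟨_, Nat.mod_lt _ (by norm_num)⟩ y
  · rw [show x.1 = 14 + x.1 % 7 by omega]; exact c14 ⟨_, Nat.mod_lt _ (by norm_num)⟩ y
  · rw [show x.1 = 21 + x.1 % 7 by omega]; exact c21 ⟨_, Nat.mod_lt _ (by norm_num)⟩ y
  · rw [show x.1 = 28 + x.1 % 7 by omega]; exact c28 ⟨_, Nat.mod_lt _ (by norm_num)⟩ y
  · rw [show x.1 = 35 + x.1 % 7 by omega]; exact c35 ⟨_, Nat.mod_lt _ (by norm_num)⟩ y

theorem rows_eq (x y : ℕ) : ∀ k p, p ≤ k → p ≤ 20 → k - p ≤ 21 → (rows x y k).getD p 0 =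
    (E (fun u v : Fin 41 => rx x y u v = true) {u | inT p (k - p) u = true}).ncard := by
  intro k
  induction k with
  | zero =>
    intro p h _ _
    obtain rfl : p = 0 := by omega
    have : {u : Fin 41 | inT 0 (0 - 0) u = true} = ∅ := by ext u; simp [inT]
    rw [this, E_empty]; simp [rows]
  | succ k ih =>
    intro p h1 h2 h3
    have ok : ∀ m : Fin 41, okb x y p (k + 1 - p) m = true ↔
        Ok (fun u v : Fin 41 => rx x y u v = true) {u | inT p (k + 1 - p) u = true} m := by
      intro m
      simp only [okb, Ok, Bool.and_eq_true, List.all_eq_true, List.mem_range, Set.mem_ofPred_eq,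
        Bool.not_eq_true', Bool.and_eq_false_imp, bne_iff_ne, Bool.not_eq_true]
      refine and_congr_right fun _ => ⟨fun h v a b => h v v.2 ⟨a, Fin.val_injective.ne b⟩,
        fun h v hv a => h ⟨v, hv⟩ a.1 fun e => a.2 (congrArg Fin.val e)⟩
    have mem : ∀ p q (u : Fin 41), u ∈ {u : Fin 41 | inT p q u = true} ↔
        u.1 < p ∨ (20 ≤ u.1 ∧ u.1 < 20 + q) := fun p q u => by simp [inT]
    rw [E_two _ _ ?_ ⟨p - 1, by omega⟩ ⟨20 + (k + 1 - p - 1), by omega⟩
      (Fin.ne_of_val_ne (by simp only; omega)) ?_]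
    · have e : (rows x y (k + 1)).getD p 0 =
          (if okb x y p (k + 1 - p) (p - 1) then (rows x y k).getD (p - 1) 0 else 0) +
          (if okb x y p (k + 1 - p) (20 + (k + 1 - p - 1)) then (rows x y k).getD p 0 else 0) := by
        simp [rows, nxt, List.getD, show p < 21 by omega]
      rw [e]
      congr 1
      · have o := ok ⟨p - 1, by omega⟩
        split_ifs with h h' h'
        rotate_left
        · exact absurd (o.mp h) h'
        · exact absurd (o.mpr h') h
        · rfl
        · have := (mem _ _ _).mp h'.1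
          simp only at this
          rw [ih (p - 1) (by omega) (by omega) (by omega)]
          congr 2
          ext u
          simp only [mem, Set.mem_sdiff, Set.mem_singleton_iff, Fin.ext_iff]
          omega
      · have o := ok ⟨20 + (k + 1 - p - 1), by omega⟩
        split_ifs with h h' h'
        rotate_left
        · exact absurd (o.mp h) h'
        · exact absurd (o.mpr h') h
        · rfl
        · have := (mem _ _ _).mp h'.1
          simp only at this
          rw [ih p (by omega) (by omega) (by omega)]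
          congr 2
          ext u
          simp only [mem, Set.mem_sdiff, Set.mem_singleton_iff, Fin.ext_iff]
          omega
    · by_cases hp : p = 0
      · exact ⟨20, (mem _ _ _).mpr (Or.inr (show 20 ≤ 20 ∧ 20 < _ by omega))⟩
      · exact ⟨0, (mem _ _ _).mpr (by simp only [Fin.val_zero]; omega)⟩
    · intro m hm
      have h4 := (mem _ _ _).mp hm.1
      by_contra hc
      simp only [not_or, Fin.ext_iff] at hc
      refine hm.2 ⟨m + 1, by omega⟩ ((mem _ _ _).mpr (by simp only; omega))
        (Fin.ne_of_val_ne (by simp)) ?_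
      have := chain ⟨m + 1, by omega⟩ m (by simp [Fin.le_def]) (by simp only; omega)
      simp only [rx, Bool.or_eq_true]
      exact Or.inl this

theorem cnt_eq (x y : ℕ) :
    cnt x y = (LinExt fun u v : Fin 41 => rx x y u v = true).ncard := by
  rw [cnt, rows_eq x y 41 20 (by omega) le_rfl le_rfl]
  congr 1
  ext l
  have : ∀ u : Fin 41, inT 20 (41 - 20) u = true := by decide
  simp [E, LinExt, this]

theorem main : IsPartialOrder (Fin 41) r ∧
    (∀ a b c, a ≠ b → a ≠ c → b ≠ c → r a b ∨ r b a ∨ r a c ∨ r c a ∨ r b c ∨ r c b) ∧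
    ¬ InD r ∧ bal r < (5864893 + 27 * √57) / 16812976 := by
  have hZ : (LinExt r).ncard = cnt 41 41 := by
    rw [cnt_eq]
    congr 2
    ext u v
    have := u.2
    simp [rx, r, show (u : ℕ) ≠ 41 by omega]
  have hfin : ∀ R : Fin 41 → Fin 41 → Prop, (LinExt R).Finite := fun R =>
    (List.finite_length_le _ (Fintype.card (Fin 41))).subset fun _ h => h.1.length_le_card
  have hp : ∀ (l : List (Fin 41)) (R : Fin 41 → Fin 41 → Prop), l.Nodup → (∀ x, x ∈ l) →
      ((l.Pairwise fun u v => ¬ R v u) ↔ ∀ u v, l.idxOf u < l.idxOf v → ¬ R v u) := by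
    intro l R h1 h2
    rw [List.pairwise_iff_getElem]
    constructor
    · intro h u v huv
      have := h _ _ (List.idxOf_lt_length_of_mem (h2 u)) (List.idxOf_lt_length_of_mem (h2 v)) huv
      simpa using this
    · intro h i j hi hj hij
      exact h _ _ (by rwa [h1.idxOf_getElem, h1.idxOf_getElem])
  have z : ∀ x y, r x y → pr r y x = 0 := fun x y h => by
    have : {l ∈ LinExt r | l.idxOf y < l.idxOf x} = ∅ :=
      Set.eq_empty_of_forall_notMem fun l hl => (hp l r hl.1.1 hl.1.2.1).mp hl.1.2.2 _ _ hl.2 h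
    simp [pr, this]
  have u : ∀ x y : Fin 41, lo x y = true → pr r x y ≤ 5865082 / 16812976 := fun x y h => by
    have h0 := check2 x y h
    have h1 : {l ∈ LinExt r | l.idxOf x < l.idxOf y}.ncard ≤ cnt x y := by
      rw [cnt_eq]
      refine Set.ncard_le_ncard (fun l hl => ⟨hl.1.1, hl.1.2.1, ?_⟩) (hfin _)
      rw [hp l (fun u v => rx x y u v = true) hl.1.1 hl.1.2.1]
      intro a b hab h
      simp only [rx, Bool.or_eq_true, Bool.and_eq_true, beq_iff_eq, Fin.val_inj] at h
      rcases h with h | ⟨rfl, rfl⟩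
      · exact (hp l r hl.1.1 hl.1.2.1).mp hl.1.2.2 _ _ hab h
      · exact lt_asymm hab hl.2
    rw [pr, hZ, cntZ, div_le_div_iff₀ (by norm_num) (by norm_num)]
    exact_mod_cast (by omega)
  refine ⟨{ refl := by decide +kernel, trans := by decide +kernel,
               antisymm := by decide +kernel }, by decide +kernel, ?_, ?_⟩
  · rintro ⟨k, -, s, e, h⟩
    have a1 := (h 0 20).not.mp (by decide +kernel)
    have a2 := (h 20 0).not.mp (by decide +kernel)
    have b1 := (h 0 21).not.mp (by decide +kernel)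
    have b2 := (h 21 0).not.mp (by decide +kernel)
    have c1 := (h 0 22).not.mp (by decide +kernel)
    have c2 := (h 22 0).not.mp (by decide +kernel)
    have d1 := (h 20 21).not.mp (by decide +kernel)
    have d2 := (h 20 22).not.mp (by decide +kernel)
    have d3 := (h 21 22).not.mp (by decide +kernel)
    simp only [Fin.ext_iff, Fin.lt_def] at a1 a2 b1 b2 c1 c2 d1 d2 d3
    have := (e 0).1.2.2
    have := (e 20).1.2.2
    have := (e 21).1.2.2
    have := (e 22).1.2.2
    omega
  · have h7 : (7 : ℝ) < √57 := Real.lt_sqrt_of_sq_lt (by norm_num)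
    refine lt_of_le_of_lt (ciSup_le fun p => ?_) (show (5865082 / 16812976 : ℝ) < _ by
      rw [div_lt_div_iff_of_pos_right (by norm_num)]; linarith)
    rcases check1 p.1 p.2 with h | h | h | h
    · exact (min_le_right _ _).trans (by rw [z _ _ h]; norm_num)
    · exact (min_le_left _ _).trans (by rw [z _ _ h]; norm_num)
    · exact (min_le_left _ _).trans (u _ _ h)
    · exact (min_le_right _ _).trans (u _ _ h)

theorem result : ∃ r : Fin 41 → Fin 41 → Prop, IsPartialOrder (Fin 41) r ∧
    (∀ a b c, a ≠ b → a ≠ c → b ≠ c → r a b ∨ r b a ∨ r a c ∨ r c a ∨ r b c ∨ r c b) ∧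
    ¬ InD r ∧ bal r < (5864893 + 27 * √57) / 16812976 := ⟨r, main⟩

end Pool.Agent.Results.MP_33fb9b_co.BelowBeta
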